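import Pool.Agent.H16.TK.Stmt2

/-! Module FISUB: isomorphisms of flaps restrict to smaller flaps. -/

set_option autoImplicit false

open Set

namespace Pool.Agent.TK

theorem fisub_maps {C : Type} {c0 : C} {M M' : St C} {a a' : List ℕ} {D D' : Set ℕ}
    {h : ℕ → ℕ} (hM : Valid c0 M) (hD : IsCp M (ms a) D) (hD' : IsCp M' (ms a') D')
    (H : FIh h M a D M' a' D') (e : List ℕ) (he : ∀ z ∈ e, z ∈ D) (v : ℕ) (hv : v ∈ D)
    (hve : v ∉ e) (u : ℕ) (hu : u ∈ cp M (ms (a ++ e)) v) :
    u ∈ D ∧ h u ∈ cp M' (ms (a' ++ e.map h)) (h v) := by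
  have hnot : ∀ c ∈ D, c ∉ e → h c ∉ ms (a' ++ e.map h) := by
    intro c hc hce h1
    rw [mem_ms, List.mem_append] at h1
    rcases h1 with h1 | h1
    · exact Set.disjoint_left.1 hD'.disj (H.2.1.mapsTo hc) h1
    · rw [List.mem_map] at h1
      obtain ⟨z, hz, h2⟩ := h1
      have h3 := H.2.1.injOn (he z hz) hc h2
      exact hce (h3 ▸ hz)
  obtain ⟨h1, h2⟩ := (hu : Conn M (ms (a ++ e)) v u)
  induction h2 with
  | refl => exact ⟨hv, Conn.refl (hnot v hv hve)⟩
  | tail hb hs ih =>
    rename_i b c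
    obtain ⟨hbD, hbc⟩ := ih
    have hc1 : c ∉ a := fun h3 => hs.2 (by rw [mem_ms, List.mem_append]; exact Or.inl h3)
    have hc2 : c ∉ e := fun h3 => hs.2 (by rw [mem_ms, List.mem_append]; exact Or.inr h3)
    have hcD : c ∈ D := by
      rw [hD.eq_cp hM hbD]
      exact Conn.single (fun h' => Set.disjoint_left.1 hD.disj hbD h') hs.1 hc1
    refine ⟨hcD, ?_⟩
    have h4 := (H.2.2 [b, c] (by
      intro z hz
      rcases List.mem_cons.1 hz with rfl | hz
      · exact hbD
      · rw [List.mem_singleton.1 hz]; exact hcD)).2.1 (b, h b) (by simp) (c, h c) (by simp)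
    exact Conn.step hbc (by rw [← h4]; exact hs.1) (hnot c hcD hc2)

theorem pf_FISUB {C : Type} {c0 : C} : FISUB C c0 := by
  intro M M' a a' D D' h hM hM' hD hD' H e he v hv hve
  have hmap := fisub_maps hM hD hD' H e he v hv hve
  refine ⟨by simp [H.1], ⟨fun u hu => (hmap u hu).2, fun u hu w hw huw =>
    H.2.1.injOn (hmap u hu).1 (hmap w hw).1 huw, ?_⟩, ?_⟩
  · intro w hw
    obtain ⟨g, G, h1, h2⟩ := H.symm
    have he' : ∀ z ∈ e.map h, z ∈ D' := by
      intro z hz
      rw [List.mem_map] at hz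
      obtain ⟨y, hy, rfl⟩ := hz
      exact H.2.1.mapsTo (he y hy)
    have hve' : h v ∉ e.map h := by
      intro h3
      rw [List.mem_map] at h3
      obtain ⟨y, hy, h4⟩ := h3
      exact hve (H.2.1.injOn (he y hy) hv h4 ▸ hy)
    obtain ⟨h3, h4⟩ := fisub_maps hM' hD' hD G (e.map h) he' (h v) (H.2.1.mapsTo hv) hve' w hw
    have h5 : (e.map h).map g = e := by
      rw [List.map_map]
      conv_rhs => rw [← List.map_id e]
      refine List.map_congr_left fun z hz => ?_
      exact h1 z (he z hz)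
    rw [h5, h1 v hv] at h4
    exact ⟨g w, h4, h2 w h3⟩
  · intro x hx
    refine (H.2.2 (e ++ x) ?_).mono ?_
    · intro z hz
      rcases List.mem_append.1 hz with hz | hz
      · exact he z hz
      · exact (hmap z (hx z hz)).1
    · intro z hz
      rw [List.zip_append H.1] at hz
      have h6 : e.zip (e.map h) = e.map (fun z => (z, h z)) := by
        clear hve he hx hz hmap
        induction e with
        | nil => rfl
        | cons b e ih => simp only [List.map_cons, List.zip_cons_cons, ih]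
      rw [h6] at hz
      simp only [List.mem_append, List.map_append] at hz ⊢
      tauto

end Pool.Agent.TK
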